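import Pool.Agent.R212.Frac6

open MeasureTheory
open scoped ENNReal

open Pool.Agent.R212.Calderon

/-- Let `n ≥ 1`, `0 < s < min(1, n/2)`, let `Ω ⊆ ℝⁿ` be open and bounded in one direction and let
`W ⊆ ℝⁿ \ closure Ω` be open.

* (well-posedness) For uniformly elliptic `γ ∈ L^∞(ℝⁿ)` and `f ∈ C_c^∞(ℝⁿ \ closure Ω)` there is a
  weak solution with exterior value `f`, unique up to null sets, so that `dnMap` is the exterior
  Dirichlet-to-Neumann map.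
* (exterior determination) If `γ₁, γ₂ ∈ L^∞(ℝⁿ)` are uniformly elliptic and
  `⟨Λ_{γ₁} f, g⟩ = ⟨Λ_{γ₂} f, g⟩` for all `f, g ∈ C_c^∞(W)`, then `γ₁ = γ₂` a.e. in `W`. -/
theorem Pool.Agent.Results.MP_cfec03_an.ExteriorDetermination.result
    (n : ℕ) (hn : 1 ≤ n) (s : ℝ) (hs0 : 0 < s) (hs1 : s < min 1 ((n : ℝ) / 2))
    (Ω W : Set (E n)) (hΩo : IsOpen Ω) (hΩ : BoundedInOneDirection Ω) (hWo : IsOpen W)
    (hWΩ : W ⊆ (closure Ω)ᶜ) :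
    (∀ γ : E n → ℝ, UniformlyElliptic γ → ∀ f : E n → ℝ, IsTest (closure Ω)ᶜ f →
      (∃ u, IsWeakSolution s Ω γ f u) ∧
      ∀ u v, IsWeakSolution s Ω γ f u → IsWeakSolution s Ω γ f v → u =ᵐ[volume] v) ∧
    (∀ γ₁ γ₂ : E n → ℝ, UniformlyElliptic γ₁ → UniformlyElliptic γ₂ →
      (∀ f g, IsTest W f → IsTest W g → dnMap s Ω γ₁ f g = dnMap s Ω γ₂ f g) →
      ∀ᵐ x : E n, x ∈ W → γ₁ x = γ₂ x) := by
  have : NeZero n := ⟨by omega⟩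
  have hs1' : s < 1 := hs1.trans_le (min_le_left _ _)
  refine ⟨fun γ hγ f hf => ⟨?_, fun u v hu hv => ?_⟩, fun γ₁ γ₂ h1 h2 hΛ => ?_⟩
  · exact exists_solution hs0 hs1' hγ hΩo hΩ (test_memHs hs0 hs1' hf)
  · exact unique_solution hs0 hs1' hγ hΩo hΩ hu hv
  · exact determination hs0 hs1' hΩo hΩ hWo hWΩ h1 h2 hΛ
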